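import Pool.Agent.R93.TotDom.Basic

/-!
# Connected claw-free graphs of minimum degree two: `FTD(G) ≥ 2n/(n+2)`

Question 1 of MP_7cc102_co in full (positive answer): every connected claw-free graph `G` of order
`n` with minimum degree at least two satisfies `FTD(G) ≥ 2n/(n+2)`; so `FTD(G) ≥ 2 - o(1)`.

Proof.  The open neighbourhoods have Hall's property `|N(U)| ≥ |U|`, and equality holds for a
nonempty `U` only if `U` is everything or `U` is independent and `N(U)` is the complement of `U`.
So for every edge `xy` there is a 2-colouring in which every neighbourhood that contains neither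
`x` nor `y` has both colours; each colour class together with `x` and `y` is a total dominating
set.  Take the `2n` total dominating sets for the edges `v φ(v)`, where `φ` is a permutation with
`φ(v)` adjacent to `v`; every vertex is in at most `n + 2` of them.

The definitions (`IsTD`, `ClawFree`, `mult`, `FTD`) are those of the starting file
`Pool/Agent/R93/TotDom/Basic.lean`.
-/

set_option autoImplicit false

namespace Pool.Agent.Results.MP_7cc102_co.MinDegreeTwo

open R93.TotDom Finset

universe u

section
variable {V : Type u} [Fintype V] [DecidableEq V] {G : SimpleGraph V} [DecidableRel G.Adj]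

/-- double counting of the edges between `I` and its neighbourhood -/
lemma sum_nb_eq (I : Finset V) :
    ∑ i ∈ I, (nb G i).card = ∑ y ∈ Nb G I, (I.filter (fun i => G.Adj y i)).card := by
  have h2 : ∀ i ∈ I, (nb G i).card = ∑ y ∈ Nb G I, if G.Adj y i then 1 else 0 := by
    intro i hi
    rw [← Finset.card_filter]
    congr 1
    ext y
    simp only [mem_nb, Finset.mem_filter, mem_Nb]
    constructor
    · intro h; exact ⟨⟨i, hi, h⟩, h.symm⟩
    · rintro ⟨_, h⟩; exact h.symm
  rw [Finset.sum_congr rfl h2, Finset.sum_comm]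
  apply Finset.sum_congr rfl
  intro y _
  rw [Finset.card_filter]

/-- Hall's property, and the equality case. -/
lemma tight (hconn : G.Connected) (hc : ClawFree G) (hd : ∀ v, 2 ≤ (nb G v).card)
    (U : Finset V) (hne : U.Nonempty) (hle : (Nb G U).card ≤ U.card) :
    (Nb G U).card = U.card ∧ (U = Finset.univ ∨ (Indep G U ∧ ∀ x, x ∉ U → x ∈ Nb G U)) := by
  set I := iso G U with hI
  have hind : Indep G I := iso_indep U
  have h1 : (U \ I).card + (Nb G I).card ≤ (Nb G U).card := card_Nb_ge U
  have h2 : I.card + (U \ I).card = U.card := iso_card_add U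
  have h3 : ∑ i ∈ I, (nb G i).card = ∑ y ∈ Nb G I, (I.filter (fun i => G.Adj y i)).card :=
    sum_nb_eq I
  have h4 : 2 * I.card ≤ ∑ i ∈ I, (nb G i).card := by
    calc 2 * I.card = ∑ i ∈ I, 2 := by simp [mul_comm]
      _ ≤ _ := Finset.sum_le_sum (fun i _ => hd i)
  have h5 : ∑ y ∈ Nb G I, (I.filter (fun i => G.Adj y i)).card ≤ ∑ y ∈ Nb G I, 2 :=
    Finset.sum_le_sum (fun y _ => card_nb_inter_le_two hc hind y)
  have h6 : ∑ y ∈ Nb G I, 2 = 2 * (Nb G I).card := by simp [mul_comm]
  have h7 : (Nb G I).card = I.card := by omega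
  have h8 : (Nb G U).card = U.card := by omega
  have h9 : ∀ y ∈ Nb G I, (I.filter (fun i => G.Adj y i)).card = 2 := by
    have h10 : ∑ y ∈ Nb G I, (I.filter (fun i => G.Adj y i)).card = ∑ y ∈ Nb G I, 2 := by omega
    exact (Finset.sum_eq_sum_iff_of_le (fun y _ => card_nb_inter_le_two hc hind y)).mp h10
  refine ⟨h8, ?_⟩
  rcases I.eq_empty_or_nonempty with hIe | hIne
  · left
    have h11 : U ⊆ Nb G U := by
      have := sdiff_iso_subset (G := G) U
      rw [← hI, hIe] at this
      simpa using this
    have h12 : U = Nb G U := Finset.eq_of_subset_of_card_le h11 hle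
    apply closed_eq_univ hconn hne
    intro v hv w hw
    rw [h12]
    exact mem_Nb.mpr ⟨v, hv, hw⟩
  · right
    have hW : I ∪ Nb G I = Finset.univ := by
      apply closed_eq_univ hconn (hIne.mono Finset.subset_union_left)
      intro v hv w hw
      rcases Finset.mem_union.mp hv with hv | hv
      · exact Finset.mem_union_right _ (mem_Nb.mpr ⟨v, hv, hw⟩)
      · by_cases hwI : w ∈ I
        · exact Finset.mem_union_left _ hwI
        · apply Finset.mem_union_right
          obtain ⟨i, j, hij, hfil⟩ := Finset.card_eq_two.mp (h9 v hv)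
          have hi : i ∈ I ∧ G.Adj v i := by
            have : i ∈ I.filter (fun i => G.Adj v i) := by rw [hfil]; simp
            simpa using this
          have hj : j ∈ I ∧ G.Adj v j := by
            have : j ∈ I.filter (fun i => G.Adj v i) := by rw [hfil]; simp
            simpa using this
          by_contra hcon
          have hni : ¬ G.Adj i w := fun h => hcon (mem_Nb.mpr ⟨i, hi.1, h⟩)
          have hnj : ¬ G.Adj j w := fun h => hcon (mem_Nb.mpr ⟨j, hj.1, h⟩)
          have hiw : i ≠ w := fun h => hwI (h ▸ hi.1)
          have hjw : j ≠ w := fun h => hwI (h ▸ hj.1)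
          exact hc ⟨v, i, j, w, hi.2, hj.2, hw, hij, hiw, hjw, hind i hi.1 j hj.1, hni, hnj⟩
    have hdis : Disjoint (Nb G I) U := Nb_iso_disj U
    have hUI : U ⊆ I := by
      intro x hx
      have : x ∈ I ∪ Nb G I := by rw [hW]; exact Finset.mem_univ x
      rcases Finset.mem_union.mp this with h | h
      · exact h
      · exact absurd hx (Finset.disjoint_left.mp hdis h)
    have hIU : I ⊆ U := Finset.filter_subset _ _
    have hEq : U = I := Finset.Subset.antisymm hUI hIU
    refine ⟨hEq ▸ hind, ?_⟩
    intro x hx
    have : x ∈ I ∪ Nb G I := by rw [hW]; exact Finset.mem_univ x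
    rcases Finset.mem_union.mp this with h | h
    · exact absurd (hIU h) hx
    · exact Nb_mono hIU h

/-- Hall's property. -/
lemma hall (hconn : G.Connected) (hc : ClawFree G) (hd : ∀ v, 2 ≤ (nb G v).card)
    (U : Finset V) : U.card ≤ (Nb G U).card := by
  rcases U.eq_empty_or_nonempty with rfl | hne
  · simp
  · by_contra hcon
    push Not at hcon
    have := (tight hconn hc hd U hne hcon.le).1
    omega

/-- a permutation `φ` with `φ(v)` adjacent to `v` -/
lemma exists_perm (hconn : G.Connected) (hc : ClawFree G) (hd : ∀ v, 2 ≤ (nb G v).card) :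
    ∃ φ : V → V, Function.Injective φ ∧ ∀ v, G.Adj v (φ v) := by
  obtain ⟨φ, h1, _, h2⟩ := exists_bij (G := G) ∅ ∅ id (by simp) (by simp)
    (fun U _ => by simpa using hall hconn hc hd U)
  exact ⟨φ, h1, fun v => h2 v (by simp)⟩

/-- For every edge `xy` there is a 2-colouring in which every neighbourhood that contains neither
`x` nor `y` has both colours. -/
lemma exists_col (hconn : G.Connected) (hc : ClawFree G) (hd : ∀ v, 2 ≤ (nb G v).card)
    {x y : V} (hxy : G.Adj x y) :
    ∃ c : V → Bool, ∀ v, G.Adj v x ∨ G.Adj v y ∨ ∃ a b, G.Adj v a ∧ G.Adj v b ∧ c a ≠ c b := by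
  obtain ⟨φ, hφ, hφ2⟩ := exists_perm hconn hc hd
  obtain ⟨c, _, hcol⟩ := ext_coloring (G := G) φ hφ
    (Finset.univ.filter (fun v => G.Adj v x ∨ G.Adj v y)) (fun v _ => hφ2 v)
    (by
      intro U hne hdis
      by_contra hcon
      push Not at hcon
      have hsub : Nb G U ⊆ U.image φ := fun z hz => hcon z hz
      have hle : (Nb G U).card ≤ U.card :=
        (Finset.card_le_card hsub).trans Finset.card_image_le
      have hx : x ∉ Nb G U := by
        intro h
        obtain ⟨v, hv, hadj⟩ := mem_Nb.mp h
        exact Finset.disjoint_left.mp hdis hv (by simp [hadj])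
      have hy : y ∉ Nb G U := by
        intro h
        obtain ⟨v, hv, hadj⟩ := mem_Nb.mp h
        exact Finset.disjoint_left.mp hdis hv (by simp [hadj])
      rcases (tight hconn hc hd U hne hle).2 with h | ⟨hind, h⟩
      · exact hx (mem_Nb.mpr ⟨y, h ▸ Finset.mem_univ y, hxy.symm⟩)
      · have hxU : x ∈ U := by
          by_contra hh; exact hx (h x hh)
        have hyU : y ∈ U := by
          by_contra hh; exact hy (h y hh)
        exact hind x hxU y hyU hxy)
    (fun _ => true)
  refine ⟨c, fun v => ?_⟩
  by_cases hv : G.Adj v x ∨ G.Adj v y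
  · rcases hv with h | h
    · exact Or.inl h
    · exact Or.inr (Or.inl h)
  · exact Or.inr (Or.inr (hcol v (by simpa using hv)))

theorem bound (hconn : G.Connected) (hc : ClawFree G) (hd : ∀ v, 2 ≤ (nb G v).card) :
    2 * (Fintype.card V : ℝ) / (Fintype.card V + 2) ≤ FTD G := by
  classical
  have hne : Nonempty V := hconn.nonempty
  obtain ⟨φ, hφ, hφ2⟩ := exists_perm hconn hc hd
  choose c hcol using fun v => exists_col hconn hc hd (hφ2 v)
  let n := Fintype.card V
  have hn : 0 < n := Fintype.card_pos
  let e : Fin n ≃ V := (Fintype.equivFin V).symm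
  have hFn : Nonempty (Fin n) := ⟨⟨0, hn⟩⟩
  let S : Fin n × Bool → Finset V := fun p =>
    Finset.univ.filter (fun u => u = e p.1 ∨ u = φ (e p.1) ∨ c (e p.1) u = p.2)
  have hS : ∀ p, IsTD G (S p) := by
    rintro ⟨j, b⟩ v
    rcases hcol (e j) v with h | h | ⟨a, a', h1, h2, h3⟩
    · exact ⟨e j, by simp [S], h⟩
    · exact ⟨φ (e j), by simp [S], h⟩
    · by_cases hab : c (e j) a = b
      · exact ⟨a, by simp [S, hab], h1⟩
      · refine ⟨a', ?_, h2⟩
        have : c (e j) a' = b := by
          cases hb : b <;> cases hx : c (e j) a <;> cases hy : c (e j) a' <;> simp_all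
        simp [S, this]
  have hM : ∀ u, (Finset.univ.filter (fun p => u ∈ S p)).card ≤ n + 2 := by
    intro u
    have h1 : (Finset.univ.filter (fun p => u ∈ S p)).card
        = ∑ j : Fin n, ∑ b : Bool, if u ∈ S (j, b) then 1 else 0 := by
      rw [Finset.card_filter, Fintype.sum_prod_type]
    have h2 : ∀ j : Fin n, (∑ b : Bool, if u ∈ S (j, b) then 1 else 0)
        ≤ 1 + ((if u = e j then 1 else 0) + (if u = φ (e j) then 1 else 0)) := by
      intro j
      simp only [S, Finset.mem_filter, Finset.mem_univ, true_and, Fintype.sum_bool]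
      by_cases hA : u = e j
      · rw [if_pos (Or.inl hA), if_pos (Or.inl hA), if_pos hA]
        omega
      · by_cases hB : u = φ (e j)
        · rw [if_pos (Or.inr (Or.inl hB)), if_pos (Or.inr (Or.inl hB)), if_neg hA, if_pos hB]
        · rw [if_neg hA, if_neg hB]
          cases hcc : c (e j) u
          · rw [if_neg, if_pos]
            · exact Or.inr (Or.inr rfl)
            · rintro (h | h | h)
              · exact hA h
              · exact hB h
              · exact Bool.noConfusion h
          · rw [if_pos, if_neg]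
            · rintro (h | h | h)
              · exact hA h
              · exact hB h
              · exact Bool.noConfusion h
            · exact Or.inr (Or.inr rfl)
    have h3 : ∑ j : Fin n, (if u = e j then 1 else 0) = 1 := by
      rw [Finset.sum_eq_single (e.symm u)]
      · simp
      · intro j _ hj
        rw [if_neg]
        intro h
        exact hj (by rw [h]; simp)
      · intro h; exact absurd (Finset.mem_univ _) h
    have h4 : ∑ j : Fin n, (if u = φ (e j) then 1 else 0) ≤ 1 := by
      rw [← Finset.card_filter]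
      apply Finset.card_le_one.mpr
      intro a ha b hb
      simp only [Finset.mem_filter, Finset.mem_univ, true_and] at ha hb
      exact e.injective (hφ (ha.symm.trans hb))
    rw [h1]
    calc _ ≤ ∑ j : Fin n, (1 + ((if u = e j then 1 else 0) + (if u = φ (e j) then 1 else 0))) :=
          Finset.sum_le_sum (fun j _ => h2 j)
      _ = n + (∑ j : Fin n, (if u = e j then 1 else 0)
            + ∑ j : Fin n, (if u = φ (e j) then 1 else 0)) := by
          rw [Finset.sum_add_distrib, Finset.sum_add_distrib]; simp
      _ ≤ n + 2 := by omega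
  have hfin := le_FTD_of_family S hS (n + 2) (fun u => by convert hM u)
  have hcard : (Fintype.card (Fin n × Bool) : ℝ) = 2 * (Fintype.card V : ℝ) := by
    simp [Fintype.card_prod, n, mul_comm]
  rw [hcard] at hfin
  have hc2 : ((n + 2 : ℕ) : ℝ) = (Fintype.card V : ℝ) + 2 := by simp [n]
  rw [hc2] at hfin
  exact hfin

end

/-- (1) Every connected claw-free graph `G` of order `n` with minimum degree at least two satisfies
`FTD(G) ≥ 2n/(n+2)`.
(2) So for every `ε > 0` there is `N` such that every connected claw-free graph of order at least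
`N` with minimum degree at least two satisfies `FTD(G) ≥ 2 - ε`. -/
theorem result :
    (∀ (V : Type u) [Fintype V] (G : SimpleGraph V), G.Connected → ClawFree G →
      (∀ v, 2 ≤ (G.neighborSet v).ncard) →
      2 * (Fintype.card V : ℝ) / (Fintype.card V + 2) ≤ FTD G) ∧
    (∀ ε : ℝ, 0 < ε → ∃ N : ℕ, ∀ (V : Type u) [Fintype V] (G : SimpleGraph V), G.Connected →
      ClawFree G → (∀ v, 2 ≤ (G.neighborSet v).ncard) → N ≤ Fintype.card V →
      2 - ε ≤ FTD G) := by
  classical
  have h1 : ∀ (V : Type u) [Fintype V] (G : SimpleGraph V), G.Connected → ClawFree G →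
      (∀ v, 2 ≤ (G.neighborSet v).ncard) →
      2 * (Fintype.card V : ℝ) / (Fintype.card V + 2) ≤ FTD G := by
    intro V _ G hconn hc hd
    apply bound hconn hc
    intro v
    have h2 : G.neighborSet v = ((nb G v : Finset V) : Set V) := by
      ext w; simp
    have h3 := hd v
    rw [h2, Set.ncard_coe_finset] at h3
    exact h3
  refine ⟨h1, ?_⟩
  intro ε hε
  refine ⟨⌈4 / ε⌉₊, ?_⟩
  intro V _ G hconn hc hd hN
  refine le_trans ?_ (h1 V G hconn hc hd)
  have h4 : 4 / ε ≤ (Fintype.card V : ℝ) := by
    exact (Nat.le_ceil _).trans (by exact_mod_cast hN)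
  have h5 : 4 ≤ (Fintype.card V : ℝ) * ε := by
    rwa [div_le_iff₀ hε] at h4
  rw [le_div_iff₀ (by positivity)]
  nlinarith

end Pool.Agent.Results.MP_7cc102_co.MinDegreeTwo
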